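import Pool.Agent.helper51.PC.Spec

set_option autoImplicit false

namespace Pool.Agent.PC

open MvPolynomial

universe u

theorem ONE_gen {k : Type u} [Field k] {n d : ℕ} (D : Fin n → Derivation k (KK k n) (KK k n))
    (s : KK k n →+* KK k n) (v : KK k n → ℤ) (O : ValuationSubring (FF k n d))
    (hO : ∀ x : FF k n d, x ∈ O ↔ Ge v 0 (io k n d x))
    (hF : ∀ y : KK k n, s y = y ↔ ∃ x : FF k n d, io k n d x = y) :
    AddSubgroup.closure {y : KK k n | ∃ c ∈ O, ∃ f : Fin n → FF k n d,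
      (∀ i, f i ∈ O) ∧ y = io k n d c * JJ D fun i => io k n d (f i)} = JO D s v := by
  have hmem : ∀ y : KK k n, y ∈ OF s v ↔ ∃ x ∈ O, io k n d x = y := by
    intro y
    constructor
    · rintro ⟨h1, h2⟩
      obtain ⟨x, rfl⟩ := (hF y).1 h1
      exact ⟨x, (hO x).2 h2, rfl⟩
    · rintro ⟨x, hx, rfl⟩
      exact ⟨(hF _).2 ⟨x, rfl⟩, (hO x).1 hx⟩
  unfold JO
  congr 1
  ext y
  simp only [Set.mem_setOf_eq]
  constructor
  · rintro ⟨c, hc, f, hf, rfl⟩
    exact ⟨io k n d c, (hmem _).2 ⟨c, hc, rfl⟩, fun i => io k n d (f i),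
      fun i => (hmem _).2 ⟨f i, hf i, rfl⟩, rfl⟩
  · rintro ⟨c, hc, f, hf, rfl⟩
    obtain ⟨c', hc', rfl⟩ := (hmem c).1 hc
    choose f' hf' hf'' using fun i => (hmem (f i)).1 (hf i)
    obtain rfl : (fun i => io k n d (f' i)) = f := funext hf''
    exact ⟨c', hc', f', hf', rfl⟩

theorem ONE (hSGK : SGK_stmt.{u}) (hFGI : FGI_stmt.{u}) (hDRV : DRV_stmt.{u}) (hTRF : TRF_stmt.{u})
    (hHTO : HTO_stmt.{u}) (hEXK : EXK_stmt.{u}) (hFIX : FIX_stmt.{u}) (hKEY : KEY_stmt.{u})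
    (hCEN : CEN_stmt.{u}) : ONE_stmt.{u} := by
  intro k _ _ n d p hn hN hchar
  obtain ⟨hsp, s, hs, hsp', hsc⟩ := hSGK k n d p hN hchar
  obtain ⟨hft, hint⟩ := hFGI k n d p hN hchar
  haveI : IsNoetherianRing (RR k n d) := Algebra.FiniteType.isNoetherianRing k _
  obtain ⟨D, hD⟩ := hDRV k n
  obtain ⟨ω, hω, hreg⟩ := hTRF k n d p hN hchar D hD
  refine ⟨ω, hω, ?_, ?_⟩
  · intro O hO hRO
    obtain ⟨v, hv, hvO, hw, hloc, hxx, hcc⟩ := hEXK k n d p hN hchar s hs O hO hRO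
    have hgen := ONE_gen D s v O hvO (hFIX k n d p hN hsp s hs)
    obtain ⟨hone, hinv⟩ := hKEY k n d p hn hN hchar D hD s hs v hv hxx hcc hw hloc
    constructor
    · rw [← one_smul (FF k n d) ω, hreg, hgen, map_one]
      exact hone
    · intro P hP hht x hx
      have hc := hCEN k n d hn inferInstance v O P hv hxx hcc hvO hP hht
      rw [hreg, hgen, map_inv₀]
      have hxio : io k n d (algebraMap (RR k n d) (FF k n d) x) = xx k n ⟨0, hn⟩ := by
        unfold io xx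
        rw [IsFractionRing.liftAlgHom_apply, IsFractionRing.lift_algebraMap]
        show algebraMap (AA k n) (KK k n) (x : AA k n) = _
        rw [hx]
      rw [hxio]
      exact hinv hc
  · intro P O hP hPO y hy
    rw [hreg] at hy
    have hle : AddSubgroup.closure {y : KK k n | ∃ c ∈ O, ∃ f : Fin n → FF k n d,
        (∀ i, f i ∈ O) ∧ y = io k n d c * JJ D fun i => io k n d (f i)} ≤
        (O.toSubring.toAddSubgroup).map (io k n d : FF k n d →+ KK k n) := by
      rw [AddSubgroup.closure_le]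
      rintro z ⟨c, hc, f, hf, rfl⟩
      obtain ⟨x, hx, hx'⟩ := hHTO k n d p hN hchar D hD P O hP hPO f hf
      refine ⟨c * x, O.mul_mem _ _ hc hx, ?_⟩
      show io k n d (c * x) = _
      rw [map_mul, hx']
    obtain ⟨z, hz, hzy⟩ := hle hy
    have : z = y := (io k n d).injective hzy
    rw [← this]
    exact hz

end Pool.Agent.PC
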